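import Pool.Agent.Lib.MP_305fdd_al.F2.RF.W7

/-!
# MP_305fdd_al, F_r project, section N, part F: `p`-bases of separable extensions, comparison of
`2⁻¹`-linear maps
-/

set_option autoImplicit false

namespace Pool.Agent.FrNF

open Pool.Agent.F2Ch Pool.Agent.F2RF

/-- the coordinates are additive and `p⁻¹`-linear -/
theorem pb_pinv {p : ℕ} [Fact p.Prime] {K ι : Type} [Field K] [CharP K p] [Fintype ι] {w : ι → K}
    {π : ι → K → K} (h : IsPB p w π) (i : ι) : IsPinv p (π i) := by
  constructor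
  · intro x y
    have h1 : x + y = ∑ j, (π j x + π j y) ^ p * w j := by
      conv_lhs => rw [← h.repr x, ← h.repr y, ← Finset.sum_add_distrib]
      refine Finset.sum_congr rfl fun j _ => ?_
      rw [add_pow_char, add_mul]
    conv_lhs => rw [h1]
    exact h.uniq _ i
  · intro a b
    have h1 : a ^ p * b = ∑ j, (a * π j b) ^ p * w j := by
      conv_lhs => rw [← h.repr b, Finset.mul_sum]
      refine Finset.sum_congr rfl fun j _ => ?_
      rw [mul_pow, mul_assoc]
    conv_lhs => rw [h1]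
    exact h.uniq _ i

theorem IsPinv.map_zero' {p : ℕ} {K : Type} [Field K] {φ : K → K} (h : IsPinv p φ) : φ 0 = 0 := by
  have h1 := h.add 0 0
  rw [add_zero] at h1
  exact left_eq_add.mp h1

theorem IsPinv.map_sum' {p : ℕ} {K ι : Type} [Field K] {φ : K → K} (h : IsPinv p φ)
    (s : Finset ι) (f : ι → K) : φ (∑ i ∈ s, f i) = ∑ i ∈ s, φ (f i) :=
  _root_.map_sum (AddMonoidHom.mk' φ h.add) f s

/-- `p`-bases of finite separable extensions -/
theorem ext_PB {p : ℕ} [Fact p.Prime] {K L : Type} [Field K] [Field L] [CharP K p] [Algebra K L]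
    [FiniteDimensional K L] [Algebra.IsSeparable K L] {ι : Type} [Fintype ι] {w : ι → K}
    {π : ι → K → K} (h : IsPB p w π) :
    ∃ π' : ι → L → L, IsPB p (fun i => algebraMap K L (w i)) π' ∧
      ∀ i f, π' i (algebraMap K L f) = algebraMap K L (π i f) := by
  classical
  have : CharP L p := charP_of_injective_algebraMap (algebraMap K L).injective p
  let b := Module.finBasis K L
  let b' := b.mapPowExpCharPowOfIsSeparable p 1
  have hb' : ∀ i, b' i = b i ^ p := by
    intro i
    have : b' i = b i ^ p ^ 1 := by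
      simp only [b', Module.Basis.mapPowExpCharPowOfIsSeparable, Module.Basis.mk_apply]
    rw [this, pow_one]
  have hpinv : ∀ i, IsPinv p (π i) := fun i => pb_pinv h i
  let π' : ι → L → L := fun i f => ∑ j, π i (b'.repr f j) • b j
  have hsum : ∀ (a : ι → L), ∑ i, a i ^ p * algebraMap K L (w i) =
      ∑ j, (∑ i, (b.repr (a i) j) ^ p * w i) • b' j := by
    intro a
    have h1 : ∀ i, a i ^ p * algebraMap K L (w i) =
        ∑ j, ((b.repr (a i) j) ^ p * w i) • b' j := by
      intro i
      conv_lhs => rw [← b.sum_repr (a i)]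
      rw [sum_pow_char, Finset.sum_mul]
      refine Finset.sum_congr rfl fun j _ => ?_
      rw [hb', Algebra.smul_def, Algebra.smul_def, mul_pow, map_mul, map_pow]
      ring
    rw [Finset.sum_congr rfl fun i _ => h1 i, Finset.sum_comm]
    refine Finset.sum_congr rfl fun j _ => ?_
    rw [Finset.sum_smul]
  have hPB : IsPB p (fun i => algebraMap K L (w i)) π' := by
   refine ⟨?_, ?_⟩
   · intro f
     rw [hsum]
     conv_rhs => rw [← b'.sum_repr f]
     refine Finset.sum_congr rfl fun j _ => ?_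
     congr 1
     have h2 : ∀ i, b.repr (π' i f) j = π i (b'.repr f j) := by
       intro i
       change b.repr (∑ j, π i (b'.repr f j) • b j) j = _
       rw [map_sum]
       simp [Finsupp.single_apply]
     rw [Finset.sum_congr rfl fun i _ => by rw [h2 i]]
     exact h.repr _
   · intro a i
     have h3 : ∀ j, b'.repr (∑ i, a i ^ p * algebraMap K L (w i)) j =
         ∑ i, (b.repr (a i) j) ^ p * w i := by
       intro j
       rw [hsum, map_sum]
       simp [Finsupp.single_apply]
     change ∑ j, π i (b'.repr (∑ i, a i ^ p * algebraMap K L (w i)) j) • b j = a i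
     conv_rhs => rw [← b.sum_repr (a i)]
     refine Finset.sum_congr rfl fun j _ => ?_
     rw [h3 j]
     congr 1
     exact h.uniq (fun i => b.repr (a i) j) i
  refine ⟨π', hPB, ?_⟩
  intro i f
  have h4 : algebraMap K L f =
      ∑ i, (algebraMap K L (π i f)) ^ p * algebraMap K L (w i) := by
    conv_lhs => rw [← h.repr f]
    rw [map_sum]
    refine Finset.sum_congr rfl fun i _ => ?_
    rw [map_mul, map_pow]
  rw [h4]
  exact hPB.uniq (fun i => algebraMap K L (π i f)) i

/-- monomial `p`-bases of finite separable extensions -/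
theorem ext_MB {p : ℕ} [Fact p.Prime] {K L : Type} [Field K] [Field L] [CharP K p] [Algebra K L]
    [FiniteDimensional K L] [Algebra.IsSeparable K L] {d : ℕ} {t : Fin d → K}
    {π : (Fin d → Fin p) → K → K} (h : MB p t π) :
    ∃ π' : (Fin d → Fin p) → L → L, MB p (fun i => algebraMap K L (t i)) π' ∧
      ∀ i f, π' i (algebraMap K L f) = algebraMap K L (π i f) := by
  obtain ⟨π', h1, h2⟩ := ext_PB (L := L) h.pb
  refine ⟨π', ⟨fun i h0 => h.ne i ((map_eq_zero _).mp h0), ?_⟩, h2⟩
  have h3 : monY (p := p) (fun i => algebraMap K L (t i)) =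
      fun a => algebraMap K L (monY (p := p) t a) := by
    funext a
    simp [monY, map_prod, map_pow]
  rw [h3]
  exact h1

theorem logTy_pinv {p : ℕ} [Fact p.Prime] {K : Type} [Field K] [CharP K p] {Φ : K → K}
    (h : LogTy p Φ) : IsPinv p Φ := by
  obtain ⟨d, t, π, g, h1, h2, h3⟩ := h
  have h4 := pb_pinv h1.pb j0
  constructor
  · intro x y
    rw [h3, h3, h3, mul_add, h4.add, mul_add]
  · intro a b
    rw [h3, h3, mul_left_comm, h4.pow_mul]
    ring

/-- extension of a map of log type to a finite separable extension -/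
theorem ext_LogTy {p : ℕ} [Fact p.Prime] {K L : Type} [Field K] [Field L] [CharP K p] [Algebra K L]
    [FiniteDimensional K L] [Algebra.IsSeparable K L] {Φ : K → K} (h : LogTy p Φ) :
    ∃ Φ' : L → L, LogTy p Φ' ∧ ∀ f, Φ' (algebraMap K L f) = algebraMap K L (Φ f) := by
  obtain ⟨d, t, π, g, h1, h2, h3⟩ := h
  obtain ⟨π', h4, h5⟩ := ext_MB (L := L) h1
  refine ⟨fun f => (algebraMap K L g)⁻¹ * π' j0 (algebraMap K L g * f),
    ⟨d, _, π', algebraMap K L g, h4, fun h0 => h2 ((map_eq_zero _).mp h0), fun _ => rfl⟩, ?_⟩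
  intro f
  rw [h3, map_mul, map_inv₀, ← h5, map_mul]

/-- characteristic 2: every nonzero `2⁻¹`-linear map is conjugate to a given map of log type -/
theorem logTy_conj {K : Type} [Field K] [CharP K 2] {Φ Ψ : K → K}
    (h : LogTy 2 Φ) (hΨ : IsPinv 2 Ψ) (h0 : ∃ x, Ψ x ≠ 0) :
    ∃ g : K, g ≠ 0 ∧ ∀ f, Φ f = g⁻¹ * Ψ (g * f) := by
  have : Fact (Nat.Prime 2) := ⟨Nat.prime_two⟩
  obtain ⟨d, t, π, g, h1, h2, h3⟩ := h
  have hp : ∀ a, IsPinv 2 (π a) := fun a => pb_pinv h1.pb a
  have h7 := (p_W7 2 K d t π h1).1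
  set M := monY (p := 2) t with hM
  let k : K := ∑ a, Ψ (M a) ^ 2 * (M a)⁻¹
  have hk : ∀ f, Ψ f = π j0 (k * f) := by
    intro f
    have e1 : Ψ f = ∑ a, π a f * Ψ (M a) := by
      conv_lhs => rw [← h1.pb.repr f]
      rw [IsPinv.map_sum' hΨ]
      exact Finset.sum_congr rfl fun a _ => hΨ.pow_mul _ _
    have e2 : k * f = ∑ a, Ψ (M a) ^ 2 * ((M a)⁻¹ * f) := by
      rw [Finset.sum_mul]
      exact Finset.sum_congr rfl fun a _ => by rw [mul_assoc]
    rw [e1, e2, IsPinv.map_sum' (hp j0)]
    refine Finset.sum_congr rfl fun a _ => ?_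
    rw [(hp j0).pow_mul, ← h7, mul_comm]
  have hk0 : k ≠ 0 := by
    intro hk0
    obtain ⟨x, hx⟩ := h0
    apply hx
    rw [hk, hk0, zero_mul, IsPinv.map_zero' (hp j0)]
  refine ⟨k * g, mul_ne_zero hk0 h2, ?_⟩
  intro f
  rw [h3, hk]
  have e3 : k * (k * g * f) = k ^ 2 * (g * f) := by ring
  rw [e3, (hp j0).pow_mul, mul_inv]
  field_simp

end Pool.Agent.FrNF
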