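import Pool.Agent.Lib.MP_305fdd_al.F2.ChDefs

/-!
# MP_305fdd_al, F_r project, section N, part F: a `2⁻¹`-linear map of `E(a)` which is nilpotent on the
polynomials in `a`
-/

set_option autoImplicit false

namespace Pool.Agent.FrNF

open Pool.Agent.F2Ch Polynomial

section one

variable (E : Type) [Field E] [CharP E 2]

/-- the field `E` as a vector space over itself through the Frobenius -/
def FE : Type := E

instance : Field (FE E) := inferInstanceAs (Field E)

instance : Module E (FE E) :=
  haveI : Fact (Nat.Prime 2) := ⟨Nat.prime_two⟩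
  Module.compHom E (frobenius E 2)

theorem FE_smul (c x : E) : (c • (show FE E from x) : FE E) = (c ^ 2 * x : E) := rfl

/-- there is a `2⁻¹`-linear map with `1 ↦ 1` -/
theorem exists_root_map : ∃ C : E → E, IsPinv 2 C ∧ C 1 = 1 := by
  have : Fact (Nat.Prime 2) := ⟨Nat.prime_two⟩
  let f : E →ₗ[E] FE E :=
    { toFun := fun x => (x ^ 2 : E)
      map_add' := fun x y => add_pow_char x y 2
      map_smul' := fun c x => by
        rw [RingHom.id_apply]
        exact (mul_pow c x 2).trans (FE_smul E c (x ^ 2)).symm }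
  have hf : LinearMap.ker f = ⊥ := by
    rw [LinearMap.ker_eq_bot']
    intro x hx
    exact (pow_eq_zero_iff two_ne_zero).mp (show (x ^ 2 : E) = 0 from hx)
  obtain ⟨g, hg⟩ := LinearMap.exists_leftInverse_of_injective f hf
  have hg1 : ∀ x : E, g (x ^ 2 : E) = x := fun x => LinearMap.congr_fun hg x
  refine ⟨g, ⟨fun x y => map_add g x y, fun a b => ?_⟩, ?_⟩
  · have h1 := g.map_smul a b
    rw [FE_smul] at h1
    exact h1
  · have := hg1 1
    rwa [one_pow] at this

end one

section psi

variable {E : Type} [Field E] (C₀ : E → E)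

/-- `∑ r_j X ^ j ↦ ∑ C₀ (r_(2j+1)) X ^ j` -/
noncomputable def ps (P : E[X]) : E[X] :=
  ∑ j ∈ Finset.range (P.natDegree + 1), monomial j (C₀ (P.coeff (2 * j + 1)))

variable {C₀}

theorem pinv_zero {p : ℕ} {K : Type} [Field K] {φ : K → K} (h : IsPinv p φ) : φ 0 = 0 := by
  have h1 := h.add 0 0
  rw [add_zero] at h1
  exact left_eq_add.mp h1

theorem coeff_ps (h : IsPinv 2 C₀) (P : E[X]) (j : ℕ) :
    (ps C₀ P).coeff j = C₀ (P.coeff (2 * j + 1)) := by
  classical
  rw [ps, finsetSum_coeff]
  simp only [coeff_monomial]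
  rw [Finset.sum_ite_eq']
  split_ifs with h1
  · rfl
  · rw [Finset.mem_range, not_lt] at h1
    rw [coeff_eq_zero_of_natDegree_lt (by omega), pinv_zero h]

theorem ps_add (h : IsPinv 2 C₀) (P Q : E[X]) : ps C₀ (P + Q) = ps C₀ P + ps C₀ Q := by
  ext j
  rw [coeff_add, coeff_ps h, coeff_ps h, coeff_ps h, coeff_add, h.add]

theorem ps_mul [CharP E 2] (h : IsPinv 2 C₀) (P R : E[X]) : ps C₀ (P ^ 2 * R) = P * ps C₀ R := by
  have : Fact (Nat.Prime 2) := ⟨Nat.prime_two⟩
  induction P using Polynomial.induction_on' with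
  | add P Q hP hQ =>
    rw [add_pow_char, add_mul, ps_add h, hP, hQ, add_mul]
  | monomial n c =>
    ext j
    have hm : ∀ (n : ℕ) (c : E) (R : E[X]) (i : ℕ), (monomial n c * R).coeff i =
        if n ≤ i then c * R.coeff (i - n) else 0 := by
      intro n c R i
      rw [← C_mul_X_pow_eq_monomial, mul_assoc, coeff_C_mul, coeff_X_pow_mul']
      split_ifs <;> simp
    rw [coeff_ps h, monomial_pow, hm, hm]
    by_cases h1 : n ≤ j
    · rw [if_pos h1, if_pos (by omega), h.pow_mul, coeff_ps h]
      congr 3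
      omega
    · rw [if_neg h1, if_neg (by omega), pinv_zero h]

theorem ps_nil (h : IsPinv 2 C₀) (P : E[X]) : ∃ e : ℕ, (ps C₀)^[e] P = 0 := by
  have key : ∀ n : ℕ, ∀ P : E[X], (∀ j, n ≤ j → P.coeff j = 0) → ∃ e : ℕ, (ps C₀)^[e] P = 0 := by
    intro n
    induction n with
    | zero =>
      intro P hP
      exact ⟨0, by ext j; simpa using hP j (Nat.zero_le j)⟩
    | succ n ih =>
      intro P hP
      obtain ⟨e, he⟩ := ih (ps C₀ P) (fun j hj => by
        rw [coeff_ps h, hP _ (by omega), pinv_zero h])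
      exact ⟨e + 1, he⟩
  exact key (P.natDegree + 1) P fun j hj => coeff_eq_zero_of_natDegree_lt hj

end psi

/-- the `2⁻¹`-linear map of `L = E(a)` which is nilpotent on `E[a]` -/
theorem exists_psi (E L : Type) [Field E] [CharP E 2] [Field L] [Algebra E L] (a : L)
    (ha : Transcendental E a)
    (hgen : ∀ x : L, ∃ P Q : E[X], aeval a Q ≠ 0 ∧ x * aeval a Q = aeval a P) :
    ∃ Ψ : L → L, IsPinv 2 Ψ ∧ (∃ x, Ψ x ≠ 0) ∧ ∀ P : E[X], ∃ e : ℕ, Ψ^[e] (aeval a P) = 0 := by
  obtain ⟨C₀, hC, hC1⟩ := exists_root_map E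
  have hinj : Function.Injective (aeval a : E[X] →ₐ[E] L) :=
    transcendental_iff_injective.mp ha
  choose nu de hde hnu using hgen
  let Ψ : L → L := fun x => aeval a (ps C₀ (nu x * de x)) / aeval a (de x)
  have key : ∀ (x : L) (P Q : E[X]), aeval a Q ≠ 0 → x * aeval a Q = aeval a P →
      Ψ x = aeval a (ps C₀ (P * Q)) / aeval a Q := by
    intro x P Q hQ hP
    have h1 : P * de x = nu x * Q := by
      apply hinj
      rw [map_mul, map_mul, ← hP, ← hnu]
      ring
    have h2 : Q * ps C₀ (nu x * de x) = de x * ps C₀ (P * Q) := by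
      rw [← ps_mul hC, ← ps_mul hC]
      congr 1
      linear_combination (-(de x) * Q) * h1
    have h3 := congrArg (aeval a) h2
    rw [map_mul, map_mul] at h3
    change aeval a (ps C₀ (nu x * de x)) / aeval a (de x) = _
    rw [div_eq_div_iff (hde x) hQ]
    linear_combination h3
  have hpol : ∀ P : E[X], Ψ (aeval a P) = aeval a (ps C₀ P) := by
    intro P
    rw [key (aeval a P) P 1 (by simp) (by simp)]
    simp
  refine ⟨Ψ, ⟨?_, ?_⟩, ⟨a, ?_⟩, ?_⟩
  · intro x y
    rw [key (x + y) (nu x * de y + nu y * de x) (de x * de y)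
      (by rw [map_mul]; exact mul_ne_zero (hde x) (hde y))
      (by rw [map_mul, map_add, map_mul, map_mul, ← hnu, ← hnu]; ring)]
    have h4 : (nu x * de y + nu y * de x) * (de x * de y) =
        (de y) ^ 2 * (nu x * de x) + (de x) ^ 2 * (nu y * de y) := by ring
    rw [h4, ps_add hC, ps_mul hC, ps_mul hC]
    change _ = aeval a (ps C₀ (nu x * de x)) / aeval a (de x) +
      aeval a (ps C₀ (nu y * de y)) / aeval a (de y)
    have h5 := hde x
    have h6 := hde y
    simp only [map_add, map_mul]
    field_simp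
  · intro c x
    rw [key (c ^ 2 * x) (nu c ^ 2 * nu x) (de c ^ 2 * de x)
      (by rw [map_mul, map_pow]; exact mul_ne_zero (pow_ne_zero _ (hde c)) (hde x))
      (by simp only [map_mul, map_pow]; rw [← hnu, ← hnu]; ring)]
    have h4 : nu c ^ 2 * nu x * (de c ^ 2 * de x) = (nu c * de c) ^ 2 * (nu x * de x) := by ring
    rw [h4, ps_mul hC]
    change _ = c * (aeval a (ps C₀ (nu x * de x)) / aeval a (de x))
    have h5 := hde x
    have h6 := hde c
    have h7 := hnu c
    have h8 : c = aeval a (nu c) / aeval a (de c) := by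
      rw [eq_div_iff h6, h7]
    conv_rhs => rw [h8]
    simp only [map_mul, map_pow]
    field_simp
  · have h9 : Ψ a = 1 := by
      have h10 := hpol X
      rw [aeval_X] at h10
      rw [h10]
      have h11 : ps C₀ (X : E[X]) = 1 := by
        ext j
        rw [coeff_ps hC, coeff_X, coeff_one]
        by_cases hj : j = 0
        · subst hj
          simp [hC1]
        · rw [if_neg (by omega), if_neg hj, pinv_zero hC]
      rw [h11, map_one]
    rw [h9]
    exact one_ne_zero
  · intro P
    obtain ⟨e, he⟩ := ps_nil hC P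
    refine ⟨e, ?_⟩
    have h12 : ∀ (e : ℕ) (P : E[X]), Ψ^[e] (aeval a P) = aeval a ((ps C₀)^[e] P) := by
      intro e
      induction e with
      | zero => intro P; rfl
      | succ e ih =>
        intro P
        rw [Function.iterate_succ_apply, Function.iterate_succ_apply, hpol, ih]
    rw [h12, he, map_zero]

end Pool.Agent.FrNF
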