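import Pool.Agent.Lib.MP_305fdd_al.Fr.N.Defs
import Pool.Agent.Lib.MP_305fdd_al.Fr.N.F.Ext
import Pool.Agent.Lib.MP_305fdd_al.Fr.N.F.Psi

/-!
# MP_305fdd_al, F_r project, section N, part F: nilpotence for subrings of `E[a]`
-/

set_option autoImplicit false

namespace Pool.Agent.FrNF

open Pool.Agent.F2Ch Pool.Agent.F2RF Pool.Agent.FrN Polynomial

theorem isFrac_of_Frc {K : Type} [Field K] [Algebra (ZMod 2) K] {A : Subalgebra (ZMod 2) K}
    (hA : Frc A) : IsFractionRing A K := by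
  refine IsFractionRing.of_field A K fun x => ?_
  obtain ⟨a, ha, b, hb, hb0, h⟩ := hA x
  refine ⟨⟨a, ha⟩, ⟨b, hb⟩, ?_⟩
  change x = a / b
  rw [eq_div_iff hb0, h]

/-- the abstract nilpotence lemma -/
theorem abs_nil {K L E : Type} [Field K] [CharP K 2] [Field L] [Algebra K L]
    [FiniteDimensional K L] [Algebra.IsSeparable K L] [Field E] [Algebra E L] (a : L)
    (ha : Transcendental E a)
    (hgen : ∀ x : L, ∃ P Q : E[X], aeval a Q ≠ 0 ∧ x * aeval a Q = aeval a P)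
    [Algebra (ZMod 2) K] (A : Subalgebra (ZMod 2) K) (hA : Frc A)
    (hAE : ∀ β ∈ A, ∃ P : E[X], aeval a P = algebraMap K L β) (Φ : K → K) (hΦ : LogTy 2 Φ) :
    ∃ c ∈ A, c ≠ 0 ∧ ∀ β ∈ A, ∃ e : ℕ, Φ^[e] (c * β) = 0 := by
  have : Fact (Nat.Prime 2) := ⟨Nat.prime_two⟩
  have : CharP L 2 := charP_of_injective_algebraMap (algebraMap K L).injective 2
  have : CharP E 2 := (algebraMap E L).charP (algebraMap E L).injective 2
  obtain ⟨Φ', hlog, hΦ'⟩ := ext_LogTy (L := L) hΦ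
  obtain ⟨Ψ, hΨ, hne, hnil⟩ := exists_psi E L a ha hgen
  obtain ⟨g, hg, hgf⟩ := logTy_conj hlog hΨ hne
  obtain ⟨P, Q, hQ, hP⟩ := hgen g
  have hfr := isFrac_of_Frc hA
  have halg : IsAlgebraic A (aeval a Q : L) :=
    (IsFractionRing.isAlgebraic_iff A K L).mpr (Algebra.IsAlgebraic.isAlgebraic _)
  obtain ⟨t, ht, r, hr, hrt⟩ :=
    halg.exists_nonzero_eq_adjoin_mul (mem_nonZeroDivisors_of_ne_zero hQ)
  have ht' : ∃ R : E[X], aeval a R = t := by
    clear hrt
    induction ht using Algebra.adjoin_induction with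
    | mem x hx =>
      rw [Set.mem_singleton_iff] at hx
      exact ⟨Q, hx.symm⟩
    | algebraMap β => exact hAE β.1 β.2
    | add x y _ _ hx hy =>
      obtain ⟨R, rfl⟩ := hx
      obtain ⟨R', rfl⟩ := hy
      exact ⟨R + R', map_add _ _ _⟩
    | mul x y _ _ hx hy =>
      obtain ⟨R, rfl⟩ := hx
      obtain ⟨R', rfl⟩ := hy
      exact ⟨R * R', map_mul _ _ _⟩
  obtain ⟨R, rfl⟩ := ht'
  refine ⟨r.1, r.2, fun h0 => hr (Subtype.ext h0), ?_⟩
  intro β hβ
  obtain ⟨B, hB⟩ := hAE β hβ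
  have h1 : g * algebraMap K L (r.1 * β) = aeval a (P * R * B) := by
    have h2 : algebraMap K L r.1 = aeval a Q * aeval a R := hrt.symm
    rw [map_mul, map_mul, map_mul, h2, ← hP, hB]
    ring
  obtain ⟨e, he⟩ := hnil (P * R * B)
  refine ⟨e, (algebraMap K L).injective ?_⟩
  have h3 : ∀ (e : ℕ) (x : K), Φ'^[e] (algebraMap K L x) = algebraMap K L (Φ^[e] x) := by
    intro e
    induction e with
    | zero => intro x; rfl
    | succ e ih => intro x; rw [Function.iterate_succ_apply, Function.iterate_succ_apply, hΦ', ih]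
  have h4 : ∀ (e : ℕ) (f : L), Φ'^[e] f = g⁻¹ * Ψ^[e] (g * f) := by
    intro e
    induction e with
    | zero =>
      intro f
      change f = g⁻¹ * (g * f)
      rw [← mul_assoc, inv_mul_cancel₀ hg, one_mul]
    | succ e ih =>
      intro f
      rw [Function.iterate_succ_apply, Function.iterate_succ_apply, ih, hgf, ← mul_assoc,
        mul_inv_cancel₀ hg, one_mul]
  rw [← h3, h4, h1, he, mul_zero, map_zero]

end Pool.Agent.FrNF
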