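import Pool.Agent.Lib.MP_305fdd_al.Fr.N.Defs

/-!
# MP_305fdd_al, F_r project, section N, part F: a normal form over a quadratic extension
-/

set_option autoImplicit false

namespace Pool.Agent.FrNF

open Matrix Polynomial

section mat

variable {Ω : Type} [Field Ω] [CharP Ω 2]

theorem two_zero : (2 : Ω) = 0 := CharTwo.two_eq_zero

/-- the trace identity -/
theorem tr_identity (lam : Ω) (hl : lam ≠ 0) (a b c d : Ω) (hdet : a * d - b * c = 1) :
    (lam + lam⁻¹) ^ 2 + (a + d) ^ 2 + (lam * a + lam⁻¹ * d) ^ 2 +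
      (lam + lam⁻¹) * (a + d) * (lam * a + lam⁻¹ * d) = (lam + lam⁻¹) ^ 2 * (b * c) := by
  have h2 := two_zero (Ω := Ω)
  have hb : b * c = a * d - 1 := by linear_combination -hdet
  rw [hb]
  have hli : lam * lam⁻¹ = 1 := mul_inv_cancel₀ hl
  linear_combination (a^2 + lam^2*a^2 + lam^2 + 1 + d^2 * lam⁻¹^2 + lam⁻¹ ^ 2 + d^2 + 1 + 2 * a * d) * h2
    + (4 + 2*a*d + a^2 + d^2) * hli

/-- simultaneous normal form -/
theorem conj_exists (M U : Matrix (Fin 2) (Fin 2) Ω) (hM : M.det = 1) (hU : U.det = 1) (lam : Ω)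
    (hl : lam ≠ 0) (htr : M.trace = lam + lam⁻¹) (hx : M.trace ≠ 0) (hc : M 1 0 ≠ 0)
    (hN : M.trace ^ 2 + U.trace ^ 2 + (M * U).trace ^ 2 + M.trace * U.trace * (M * U).trace ≠ 0) :
    ∃ Q : Matrix (Fin 2) (Fin 2) Ω, IsUnit Q.det ∧ Q⁻¹ * M * Q = !![lam, 0; 0, lam⁻¹] ∧
      (Q⁻¹ * U * Q) 0 1 = 1 ∧ (Q⁻¹ * U * Q) 1 0 ≠ 0 := by
  have h2 := two_zero (Ω := Ω)
  have hli : lam * lam⁻¹ = 1 := mul_inv_cancel₀ hl
  have key : ∀ Q : Matrix (Fin 2) (Fin 2) Ω, IsUnit Q.det →
      Q⁻¹ * M * Q = !![lam, 0; 0, lam⁻¹] →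
      (Q⁻¹ * U * Q) 0 1 ≠ 0 ∧ (Q⁻¹ * U * Q) 1 0 ≠ 0 := by
    intro Q hQ hD
    have hQQ : Q * Q⁻¹ = 1 := Matrix.mul_nonsing_inv Q hQ
    set B := Q⁻¹ * U * Q with hB
    have hBdet : B.det = 1 := by
      rw [hB, Matrix.det_mul, Matrix.det_mul, hU, mul_one, ← Matrix.det_mul,
        Matrix.nonsing_inv_mul Q hQ, Matrix.det_one]
    have hBtr : B.trace = U.trace := by
      rw [hB, Matrix.trace_mul_comm, ← mul_assoc, hQQ, one_mul]
    have hDB : (!![lam, 0; 0, lam⁻¹] * B).trace = (M * U).trace := by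
      rw [← hD, hB]
      have e : Q⁻¹ * M * Q * (Q⁻¹ * U * Q) = Q⁻¹ * (M * U) * Q := by
        calc Q⁻¹ * M * Q * (Q⁻¹ * U * Q) = Q⁻¹ * M * (Q * Q⁻¹) * U * Q := by
              simp only [mul_assoc]
          _ = Q⁻¹ * (M * U) * Q := by rw [hQQ, mul_one]; simp only [mul_assoc]
      rw [e, Matrix.trace_mul_comm, ← mul_assoc, hQQ, one_mul]
    have e1 : B.trace = B 0 0 + B 1 1 := Matrix.trace_fin_two B
    have e2 : (!![lam, 0; 0, lam⁻¹] * B).trace = lam * B 0 0 + lam⁻¹ * B 1 1 := by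
      rw [Matrix.trace_fin_two]
      simp [Matrix.mul_apply, Fin.sum_univ_two]
    rw [Matrix.det_fin_two] at hBdet
    have e3 := tr_identity lam hl (B 0 0) (B 0 1) (B 1 0) (B 1 1) hBdet
    rw [← e1, ← e2, hBtr, hDB, ← htr] at e3
    rw [e3] at hN
    have h3 := right_ne_zero_of_mul hN
    exact ⟨left_ne_zero_of_mul h3, right_ne_zero_of_mul h3⟩
  have hMtr : M 0 0 + M 1 1 = lam + lam⁻¹ := by rw [← htr, Matrix.trace_fin_two]
  have hMdet : M 0 0 * M 1 1 - M 0 1 * M 1 0 = 1 := by rw [← hM, Matrix.det_fin_two]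
  let Q₀ : Matrix (Fin 2) (Fin 2) Ω := !![lam + M 1 1, lam⁻¹ + M 1 1; M 1 0, M 1 0]
  have hQ₀ : Q₀.det = M 1 0 * M.trace := by
    rw [Matrix.det_fin_two, htr]
    simp only [Q₀, Matrix.of_apply, Matrix.cons_val', Matrix.cons_val_zero, Matrix.cons_val_one,
      Matrix.cons_val_fin_one]
    linear_combination (-(lam⁻¹ * M 1 0)) * h2
  have hQ₀u : IsUnit Q₀.det := by
    rw [hQ₀]
    exact (mul_ne_zero hc hx).isUnit
  have hMQ : M * Q₀ = Q₀ * !![lam, 0; 0, lam⁻¹] := by
    ext i j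
    fin_cases i <;> fin_cases j <;>
      simp [Q₀, Matrix.mul_apply, Fin.sum_univ_two]
    · linear_combination (lam : Ω) * hMtr - hMdet + hli * 1 +
        (M 0 0 * M 1 1 - lam * M 1 1) * h2
    · linear_combination (lam⁻¹ : Ω) * hMtr - hMdet + hli * 1 +
        (M 0 0 * M 1 1 - lam⁻¹ * M 1 1) * h2
    · ring_nf
      linear_combination (M 1 0 * M 1 1) * h2
    · ring_nf
      linear_combination (M 1 0 * M 1 1) * h2
  have hD₀ : Q₀⁻¹ * M * Q₀ = !![lam, 0; 0, lam⁻¹] := by
    rw [mul_assoc, hMQ, ← mul_assoc, Matrix.nonsing_inv_mul Q₀ hQ₀u, one_mul]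
  obtain ⟨k1, k2⟩ := key Q₀ hQ₀u hD₀
  set β := (Q₀⁻¹ * U * Q₀) 0 1 with hβ
  let D : Matrix (Fin 2) (Fin 2) Ω := !![β, 0; 0, 1]
  have hDdet : D.det = β := by
    simp [D, Matrix.det_fin_two]
  have hDu : IsUnit D.det := by rw [hDdet]; exact k1.isUnit
  have hDinv : D⁻¹ = !![β⁻¹, 0; 0, 1] := by
    apply Matrix.inv_eq_left_inv
    ext i j
    fin_cases i <;> fin_cases j <;> simp [D, Matrix.mul_apply, Fin.sum_univ_two, k1]
  have hQu : IsUnit (Q₀ * D).det := by
    rw [Matrix.det_mul]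
    exact hQ₀u.mul hDu
  have hconj : ∀ X : Matrix (Fin 2) (Fin 2) Ω, (Q₀ * D)⁻¹ * X * (Q₀ * D) =
      D⁻¹ * (Q₀⁻¹ * X * Q₀) * D := by
    intro X
    rw [Matrix.mul_inv_rev]
    simp only [mul_assoc]
  have hDD : (Q₀ * D)⁻¹ * M * (Q₀ * D) = !![lam, 0; 0, lam⁻¹] := by
    rw [hconj, hD₀, hDinv]
    ext i j
    fin_cases i <;> fin_cases j <;> simp [D, Matrix.mul_apply, Fin.sum_univ_two]
    rw [mul_right_comm, inv_mul_cancel₀ k1, one_mul]
  refine ⟨Q₀ * D, hQu, hDD, ?_, (key _ hQu hDD).2⟩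
  rw [hconj, hDinv]
  have e5 : ∀ X : Matrix (Fin 2) (Fin 2) Ω, (!![β⁻¹, 0; 0, 1] * X * D) 0 1 = β⁻¹ * X 0 1 := by
    intro X
    rw [Matrix.mul_apply, Fin.sum_univ_two, Matrix.mul_apply, Matrix.mul_apply, Fin.sum_univ_two,
      Fin.sum_univ_two]
    simp [D]
  rw [e5, ← hβ, inv_mul_cancel₀ k1]

end mat

section field

/-- normal form over a quadratic extension -/
theorem normal_form {Γ K F : Type} [Group Γ] [Field K] [Field F] [CharP F 2] [Algebra K F]
    (T : Γ → K) (ρ : Γ →* SpecialLinearGroup (Fin 2) F)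
    (htr : ∀ g, (ρ g).1.trace = algebraMap K F (T g)) (s u : Γ) (hs : T s ≠ 0)
    (hc : (ρ s).1 1 0 ≠ 0)
    (hN : T s ^ 2 + T u ^ 2 + T (s * u) ^ 2 + T s * T u * T (s * u) ≠ 0) :
    ∃ (L : Type) (_ : Field L) (_ : Algebra K L) (lam : L)
      (r : Γ →* SpecialLinearGroup (Fin 2) L), FiniteDimensional K L ∧ Algebra.IsSeparable K L ∧
      (∀ x : L, ∃ k₀ k₁ : K, x = algebraMap K L k₀ + algebraMap K L k₁ * lam) ∧
      (∀ g, (r g).1.trace = algebraMap K L (T g)) ∧ (r s).1 = !![lam, 0; 0, lam⁻¹] ∧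
      (r u).1 0 1 = 1 := by
  let Ω := AlgebraicClosure F
  let iA : Algebra K Ω := ((algebraMap F Ω).comp (algebraMap K F)).toAlgebra
  have : CharP Ω 2 := charP_of_injective_algebraMap (algebraMap F Ω).injective 2
  have h2 : (2 : Ω) = 0 := CharTwo.two_eq_zero
  let q : K[X] := X ^ 2 + C (T s) * X + 1
  have hqm : q.Monic := by
    simp only [q]
    monicity!
  have hqd : q.natDegree = 2 := by
    simp only [q]
    compute_degree!
  obtain ⟨lam, hlam⟩ := IsAlgClosed.exists_aeval_eq_zero Ω q (by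
    rw [Polynomial.degree_eq_natDegree hqm.ne_zero, hqd]
    norm_num)
  have hlam' : lam ^ 2 + algebraMap K Ω (T s) * lam + 1 = 0 := by
    simpa [q] using hlam
  have hl : lam ≠ 0 := by
    rintro rfl
    simp at hlam'
  have hx : algebraMap K Ω (T s) = lam + lam⁻¹ := by
    have hli : lam * lam⁻¹ = 1 := mul_inv_cancel₀ hl
    apply mul_right_cancel₀ hl
    linear_combination hlam' - (lam ^ 2 + 1) * h2 - hli
  have hli : lam * lam⁻¹ = 1 := mul_inv_cancel₀ hl
  have hx0 : algebraMap K Ω (T s) ≠ 0 := fun h => hs ((map_eq_zero _).mp h)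
  let M : Γ → Matrix (Fin 2) (Fin 2) Ω := fun g => (ρ g).1.map (algebraMap F Ω)
  have hMtr : ∀ g, (M g).trace = algebraMap K Ω (T g) := by
    intro g
    have h1 : (M g).trace = algebraMap F Ω ((ρ g).1.trace) := by
      simp [M, Matrix.trace_fin_two, Matrix.map_apply, map_add]
    rw [h1, htr]
    rfl
  have hMdet : ∀ g, (M g).det = 1 := by
    intro g
    have h1 : (M g).det = algebraMap F Ω ((ρ g).1.det) := by
      rw [RingHom.map_det]
      rfl
    rw [h1, (ρ g).2, map_one]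
  have hMmul : ∀ g h, M (g * h) = M g * M h := by
    intro g h
    have h1 : (ρ (g * h)).1 = (ρ g).1 * (ρ h).1 := by
      rw [map_mul]
      rfl
    simp only [M]
    rw [h1, Matrix.map_mul]
  have hM1 : M 1 = 1 := by
    have h1 : (ρ 1).1 = 1 := by
      rw [map_one]
      rfl
    simp only [M]
    rw [h1, Matrix.map_one _ (map_zero _) (map_one _)]
  obtain ⟨Q, hQ, hD, hU, hU'⟩ := conj_exists (M s) (M u) (hMdet s) (hMdet u) lam hl
    (by rw [hMtr, hx]) (by rw [hMtr]; exact hx0)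
    (by
      simp only [M, Matrix.map_apply]
      exact fun h => hc ((map_eq_zero _).mp h))
    (by
      rw [← hMmul, hMtr, hMtr, hMtr]
      intro h
      apply hN
      apply (algebraMap K Ω).injective
      rw [map_zero, ← h]
      simp only [map_add, map_mul, map_pow])
  have hQQ : Q * Q⁻¹ = 1 := Matrix.mul_nonsing_inv Q hQ
  let N : Γ → Matrix (Fin 2) (Fin 2) Ω := fun g => Q⁻¹ * M g * Q
  have hNmul : ∀ g h, N (g * h) = N g * N h := by
    intro g h
    calc N (g * h) = Q⁻¹ * (M g * M h) * Q := by simp only [N]; rw [hMmul]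
      _ = Q⁻¹ * M g * (Q * Q⁻¹) * M h * Q := by rw [hQQ, mul_one]; simp only [mul_assoc]
      _ = N g * N h := by simp only [N, mul_assoc]
  have hNtr : ∀ g, N g 0 0 + N g 1 1 = algebraMap K Ω (T g) := by
    intro g
    rw [← Matrix.trace_fin_two, ← hMtr]
    simp only [N]
    rw [Matrix.trace_mul_comm, ← mul_assoc, hQQ, one_mul]
  have hNdet : ∀ g, (N g).det = 1 := by
    intro g
    simp only [N]
    rw [Matrix.det_mul, Matrix.det_mul, hMdet, mul_one, ← Matrix.det_mul,
      Matrix.nonsing_inv_mul Q hQ, Matrix.det_one]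
  have hN1 : N 1 = 1 := by
    simp only [N]
    rw [hM1, mul_one, Matrix.nonsing_inv_mul Q hQ]
  let L := IntermediateField.adjoin K {lam}
  have hlL : lam ∈ L := IntermediateField.mem_adjoin_simple_self K lam
  have hliL : lam⁻¹ ∈ L := L.inv_mem hlL
  have hTL : ∀ g, algebraMap K Ω (T g) ∈ L := fun g => L.algebraMap_mem _
  have hα : ∀ g, N g 0 0 ∈ L := by
    intro g
    have h1 := hNtr g
    have h3 := hNtr (s * g)
    rw [hNmul] at h3
    have h4 : (N s * N g) 0 0 = lam * N g 0 0 := by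
      have : N s = !![lam, 0; 0, lam⁻¹] := hD
      rw [this, Matrix.mul_apply, Fin.sum_univ_two]
      simp
    have h5 : (N s * N g) 1 1 = lam⁻¹ * N g 1 1 := by
      have : N s = !![lam, 0; 0, lam⁻¹] := hD
      rw [this, Matrix.mul_apply, Fin.sum_univ_two]
      simp
    rw [h4, h5] at h3
    have h6 : N g 0 0 = (algebraMap K Ω (T (s * g)) + lam⁻¹ * algebraMap K Ω (T g)) /
        algebraMap K Ω (T s) := by
      rw [eq_div_iff hx0, hx]
      linear_combination h3 - lam⁻¹ * h1 + (N g 0 0 * lam⁻¹ -lam⁻¹ * algebraMap K Ω (T g)) * h2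
    rw [h6]
    exact L.div_mem (L.add_mem (hTL _) (L.mul_mem hliL (hTL _))) (hTL _)
  have hδ : ∀ g, N g 1 1 ∈ L := by
    intro g
    have h1 : N g 1 1 = algebraMap K Ω (T g) - N g 0 0 := by rw [← hNtr g]; ring
    rw [h1]
    exact L.sub_mem (hTL _) (hα g)
  have hγ : ∀ g, N g 1 0 ∈ L := by
    intro g
    have h1 : N (u * g) 0 0 = N u 0 0 * N g 0 0 + N u 0 1 * N g 1 0 := by
      rw [hNmul, Matrix.mul_apply, Fin.sum_univ_two]
    have h3 : N u 0 1 = 1 := hU
    rw [h3, one_mul] at h1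
    have h4 : N g 1 0 = N (u * g) 0 0 - N u 0 0 * N g 0 0 := by rw [h1]; ring
    rw [h4]
    exact L.sub_mem (hα _) (L.mul_mem (hα _) (hα _))
  have hβ : ∀ g, N g 0 1 ∈ L := by
    intro g
    have h1 : N (g * u) 0 0 = N g 0 0 * N u 0 0 + N g 0 1 * N u 1 0 := by
      rw [hNmul, Matrix.mul_apply, Fin.sum_univ_two]
    have h4 : N g 0 1 = (N (g * u) 0 0 - N g 0 0 * N u 0 0) / N u 1 0 := by
      rw [eq_div_iff hU', h1]; ring
    rw [h4]
    exact L.div_mem (L.sub_mem (hα _) (L.mul_mem (hα _) (hα _))) (hγ _)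
  have hNL : ∀ g i j, N g i j ∈ L := by
    intro g i j
    fin_cases i <;> fin_cases j
    · exact hα g
    · exact hβ g
    · exact hγ g
    · exact hδ g
  let R : Γ → Matrix (Fin 2) (Fin 2) L := fun g => Matrix.of fun i j => ⟨N g i j, hNL g i j⟩
  have hR : ∀ g, (R g).map (algebraMap L Ω) = N g := by
    intro g
    ext i j
    rfl
  have hinj : Function.Injective (algebraMap L Ω) := (algebraMap L Ω).injective
  have hinjM : Function.Injective (fun X : Matrix (Fin 2) (Fin 2) L => X.map (algebraMap L Ω)) :=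
    Matrix.map_injective hinj
  have hRdet : ∀ g, (R g).det = 1 := by
    intro g
    apply hinj
    rw [map_one, RingHom.map_det]
    exact (congrArg Matrix.det (hR g)).trans (hNdet g)
  let r : Γ →* SpecialLinearGroup (Fin 2) L :=
    { toFun := fun g => ⟨R g, hRdet g⟩
      map_one' := by
        apply Subtype.ext
        apply hinjM
        change (R 1).map (algebraMap L Ω) = (1 : Matrix (Fin 2) (Fin 2) L).map (algebraMap L Ω)
        rw [hR, hN1, Matrix.map_one _ (map_zero _) (map_one _)]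
      map_mul' := by
        intro g h
        apply Subtype.ext
        apply hinjM
        change (R (g * h)).map (algebraMap L Ω) = (R g * R h).map (algebraMap L Ω)
        rw [Matrix.map_mul, hR, hR, hR, hNmul] }
  have hint : IsIntegral K lam := ⟨q, hqm, hlam⟩
  have hsep : IsSeparable K lam := by
    have h1 : q.Separable := by
      have : CharP K 2 := (algebraMap K F).charP (algebraMap K F).injective 2
      have h3 : derivative q = C (T s) := by
        simp only [q]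
        rw [derivative_add, derivative_add, derivative_X_pow, derivative_mul, derivative_C,
          derivative_X, derivative_one]
        have : ((2 : ℕ) : K) = 0 := CharTwo.two_eq_zero
        rw [this]
        simp
      refine ⟨0, C (T s)⁻¹, ?_⟩
      rw [h3, ← C_mul, inv_mul_cancel₀ hs]
      simp
    exact h1.of_dvd (minpoly.dvd K lam hlam)
  refine ⟨L, inferInstance, inferInstance, ⟨lam, hlL⟩, r,
    IntermediateField.adjoin.finiteDimensional hint,
    (IntermediateField.isSeparable_adjoin_simple_iff_isSeparable K Ω).mpr hsep, ?_, ?_, ?_, ?_⟩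
  · rintro ⟨x, hx'⟩
    have h1 : x ∈ Algebra.adjoin K {lam} := by
      have h3 := IntermediateField.adjoin_simple_toSubalgebra_of_isAlgebraic hint.isAlgebraic
      have h4 : x ∈ (IntermediateField.adjoin K {lam}).toSubalgebra := hx'
      rwa [h3] at h4
    have h5 : ∃ k₀ k₁ : K, x = algebraMap K Ω k₀ + algebraMap K Ω k₁ * lam := by
      clear hx'
      induction h1 using Algebra.adjoin_induction with
      | mem x hx =>
        rw [Set.mem_singleton_iff] at hx
        exact ⟨0, 1, by rw [hx]; simp⟩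
      | algebraMap c => exact ⟨c, 0, by simp⟩
      | add x y _ _ hx hy =>
        obtain ⟨a, b, rfl⟩ := hx
        obtain ⟨c, d, rfl⟩ := hy
        exact ⟨a + c, b + d, by rw [map_add, map_add]; ring⟩
      | mul x y _ _ hx hy =>
        obtain ⟨a, b, rfl⟩ := hx
        obtain ⟨c, d, rfl⟩ := hy
        refine ⟨a * c - b * d, a * d + b * c - b * d * T s, ?_⟩
        simp only [map_add, map_sub, map_mul]
        linear_combination (algebraMap K Ω b * algebraMap K Ω d) * hlam'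
    obtain ⟨k₀, k₁, h6⟩ := h5
    exact ⟨k₀, k₁, Subtype.ext h6⟩
  · intro g
    apply hinj
    change algebraMap L Ω ((R g).trace) = algebraMap K Ω (T g)
    rw [← hNtr g, Matrix.trace_fin_two]
    rfl
  · apply hinjM
    change (R s).map (algebraMap L Ω) = _
    rw [hR]
    have : N s = !![lam, 0; 0, lam⁻¹] := hD
    rw [this]
    ext i j
    fin_cases i <;> fin_cases j <;> simp
  · apply hinj
    change N u 0 1 = algebraMap L Ω 1
    rw [map_one]
    exact hU

end field

end Pool.Agent.FrNF
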