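import Pool.Agent.Lib.MP_305fdd_al.Fr.N.Int
import Pool.Agent.Lib.MP_305fdd_al.Fr.N.F.Abs
import Pool.Agent.Lib.MP_305fdd_al.Fr.N.F.Norm

/-!
# MP_305fdd_al, F_r project, section N, part F: nilpotence for the free group
-/

set_option autoImplicit false

namespace Pool.Agent.FrNF

open Matrix Polynomial Pool.Agent.FrN Pool.Agent.F2RF

/-- a matrix of determinant one has entries in a field generated by three of them -/
theorem three_entries {L : Type} [Field L] [Algebra (ZMod 2) L] (M : SpecialLinearGroup (Fin 2) L) :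
    ∃ V : Finset L, V.card ≤ 3 ∧ ∀ E : IntermediateField (ZMod 2) L, (∀ x ∈ V, x ∈ E) →
      ∀ i j, M.1 i j ∈ E := by
  classical
  have hdet : M.1 0 0 * M.1 1 1 - M.1 0 1 * M.1 1 0 = 1 := by
    rw [← Matrix.det_fin_two]
    exact M.2
  by_cases h : M.1 0 0 = 0
  · refine ⟨{M.1 0 1, M.1 1 1}, Finset.card_le_two.trans (by norm_num), ?_⟩
    intro E hE
    have h1 : M.1 0 1 ∈ E := hE _ (by simp)
    have h2 : M.1 1 1 ∈ E := hE _ (by simp)
    rw [h, zero_mul, zero_sub] at hdet
    have h3 : M.1 0 1 ≠ 0 := by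
      intro h3
      rw [h3, zero_mul, neg_zero] at hdet
      exact zero_ne_one hdet
    have h4 : M.1 1 0 = -(M.1 0 1)⁻¹ := by
      field_simp
      linear_combination -hdet
    have h5 : M.1 1 0 ∈ E := by
      rw [h4]
      exact E.neg_mem (E.inv_mem h1)
    intro i j
    fin_cases i <;> fin_cases j
    · change M.1 0 0 ∈ E
      rw [h]
      exact E.zero_mem
    · exact h1
    · exact h5
    · exact h2
  · refine ⟨{M.1 0 0, M.1 0 1, M.1 1 0}, Finset.card_le_three, ?_⟩
    intro E hE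
    have h0 : M.1 0 0 ∈ E := hE _ (by simp)
    have h1 : M.1 0 1 ∈ E := hE _ (by simp)
    have h2 : M.1 1 0 ∈ E := hE _ (by simp)
    have h4 : M.1 1 1 = (1 + M.1 0 1 * M.1 1 0) / M.1 0 0 := by
      rw [eq_div_iff h]
      linear_combination hdet
    intro i j
    fin_cases i <;> fin_cases j
    · exact h0
    · exact h1
    · exact h2
    · change M.1 1 1 ∈ E
      rw [h4]
      exact E.div_mem (E.add_mem E.one_mem (E.mul_mem h1 h2)) h0

theorem sl_inv_entries {L : Type} [Field L] (M : SpecialLinearGroup (Fin 2) L) :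
    (M⁻¹).1 0 0 = M.1 1 1 ∧ (M⁻¹).1 0 1 = -M.1 0 1 ∧ (M⁻¹).1 1 0 = -M.1 1 0 ∧
      (M⁻¹).1 1 1 = M.1 0 0 := by
  have h : (M⁻¹).1 = M.1.adjugate := Matrix.SpecialLinearGroup.coe_inv M
  rw [h, Matrix.adjugate_fin_two]
  simp

/-- the generic case -/
theorem nil_of_normal {b : ℕ} {K L : Type} [Field K] [CharP K 2] [Algebra (ZMod 2) K] [Field L]
    [Algebra K L] [FiniteDimensional K L] [Algebra.IsSeparable K L]
    (T : FreeGroup (Fin b) → K) (hfrac : Frc (BB 2 T))
    (htd : Algebra.trdeg (ZMod 2) K + 3 = 3 * b) (i₀ i₁ : Fin b) (hi : i₁ ≠ i₀) (lam : L)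
    (r : FreeGroup (Fin b) →* SpecialLinearGroup (Fin 2) L)
    (hL : ∀ x : L, ∃ k₀ k₁ : K, x = algebraMap K L k₀ + algebraMap K L k₁ * lam)
    (htr : ∀ g, (r g).1.trace = algebraMap K L (T g))
    (h0 : (r (FreeGroup.of i₀)).1 = !![lam, 0; 0, lam⁻¹]) (h1 : (r (FreeGroup.of i₁)).1 0 1 = 1)
    (Φ : K → K) (hΦ : LogTy 2 Φ) :
    ∃ c ∈ BB 2 T, c ≠ 0 ∧ ∀ β ∈ BB 2 T, ∃ e : ℕ, Φ^[e] (c * β) = 0 := by
  classical
  let iL : Algebra (ZMod 2) L := ((algebraMap K L).comp (algebraMap (ZMod 2) K)).toAlgebra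
  have tow : IsScalarTower (ZMod 2) K L := IsScalarTower.of_algebraMap_eq fun _ => rfl
  choose V hV3 hVE using three_entries (L := L)
  let S : Finset L := {lam, (r (FreeGroup.of i₁)).1 1 1} ∪
    ((Finset.univ.erase i₀).erase i₁).biUnion fun i => V (r (FreeGroup.of i))
  have hScard : S.card ≤ 2 + (b - 1 - 1) * 3 := by
    refine (Finset.card_union_le _ _).trans (Nat.add_le_add Finset.card_le_two ?_)
    refine (Finset.card_biUnion_le_card_mul _ _ 3 fun i _ => hV3 _).trans (le_of_eq ?_)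
    rw [Finset.card_erase_of_mem (by simp [hi]), Finset.card_erase_of_mem (Finset.mem_univ _),
      Finset.card_univ, Fintype.card_fin]
  let E := IntermediateField.adjoin (ZMod 2) (S : Set L)
  let a : L := (r (FreeGroup.of i₁)).1 0 0
  have hSE : ∀ x ∈ S, x ∈ E := fun x hx => IntermediateField.subset_adjoin _ _ hx
  have hlam : lam ∈ E := hSE _ (by simp [S])
  have hdel : (r (FreeGroup.of i₁)).1 1 1 ∈ E := hSE _ (by simp [S])
  have hoth : ∀ i, i ≠ i₀ → i ≠ i₁ → ∀ j k, (r (FreeGroup.of i)).1 j k ∈ E := by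
    intro i hi0 hi1
    refine hVE _ E fun x hx => hSE _ ?_
    refine Finset.mem_union_right _ (Finset.mem_biUnion.mpr ⟨i, ?_, hx⟩)
    simp [hi0, hi1]
  let A : Subalgebra E L := Algebra.adjoin E {a}
  have haA : a ∈ A := Algebra.self_mem_adjoin_singleton E a
  have hEA : ∀ x ∈ E, x ∈ A := fun x hx => A.algebraMap_mem (⟨x, hx⟩ : E)
  have hgenA : ∀ i j k, (r (FreeGroup.of i)).1 j k ∈ A := by
    intro i
    by_cases hi0 : i = i₀
    · subst hi0
      rw [h0]
      intro j k
      fin_cases j <;> fin_cases k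
      · exact hEA _ hlam
      · exact A.zero_mem
      · exact A.zero_mem
      · exact hEA _ (E.inv_mem hlam)
    · by_cases hi1 : i = i₁
      · subst hi1
        have hdet : (r (FreeGroup.of i)).1 0 0 * (r (FreeGroup.of i)).1 1 1 -
            (r (FreeGroup.of i)).1 0 1 * (r (FreeGroup.of i)).1 1 0 = 1 := by
          rw [← Matrix.det_fin_two]
          exact (r (FreeGroup.of i)).2
        rw [h1, one_mul] at hdet
        have h3 : (r (FreeGroup.of i)).1 1 0 =
            (r (FreeGroup.of i)).1 0 0 * (r (FreeGroup.of i)).1 1 1 - 1 := by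
          linear_combination -hdet
        intro j k
        fin_cases j <;> fin_cases k
        · exact haA
        · change (r (FreeGroup.of i)).1 0 1 ∈ A
          rw [h1]
          exact A.one_mem
        · change (r (FreeGroup.of i)).1 1 0 ∈ A
          rw [h3]
          exact A.sub_mem (A.mul_mem haA (hEA _ hdel)) A.one_mem
        · exact hEA _ hdel
      · intro j k
        exact hEA _ (hoth i hi0 hi1 j k)
  have hrA : ∀ g j k, (r g).1 j k ∈ A := by
    intro g
    induction g using FreeGroup.induction_on with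
    | C1 =>
      intro j k
      rw [map_one]
      change (1 : Matrix (Fin 2) (Fin 2) L) j k ∈ A
      by_cases hjk : j = k
      · rw [hjk, Matrix.one_apply_eq]
        exact A.one_mem
      · rw [Matrix.one_apply_ne hjk]
        exact A.zero_mem
    | of i => exact hgenA i
    | inv_of i _ =>
      obtain ⟨e1, e2, e3, e4⟩ := sl_inv_entries (r (FreeGroup.of i))
      intro j k
      rw [map_inv]
      fin_cases j <;> fin_cases k
      · change ((r (FreeGroup.of i))⁻¹).1 0 0 ∈ A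
        rw [e1]
        exact hgenA i 1 1
      · change ((r (FreeGroup.of i))⁻¹).1 0 1 ∈ A
        rw [e2]
        exact A.neg_mem (hgenA i 0 1)
      · change ((r (FreeGroup.of i))⁻¹).1 1 0 ∈ A
        rw [e3]
        exact A.neg_mem (hgenA i 1 0)
      · change ((r (FreeGroup.of i))⁻¹).1 1 1 ∈ A
        rw [e4]
        exact hgenA i 0 0
    | mul x y hx hy =>
      intro j k
      have h3 : (r (x * y)).1 = (r x).1 * (r y).1 := by
        rw [map_mul]
        rfl
      rw [h3, Matrix.mul_apply, Fin.sum_univ_two]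
      exact A.add_mem (A.mul_mem (hx _ _) (hy _ _)) (A.mul_mem (hx _ _) (hy _ _))
  have hBA : ∀ β ∈ BB 2 T, algebraMap K L β ∈ A := by
    intro β hβ
    induction hβ using Algebra.adjoin_induction with
    | mem x hx =>
      obtain ⟨g, rfl⟩ := hx
      rw [← htr, Matrix.trace_fin_two]
      exact A.add_mem (hrA _ _ _) (hrA _ _ _)
    | algebraMap c =>
      rw [← IsScalarTower.algebraMap_apply (ZMod 2) K L]
      exact hEA _ (E.algebraMap_mem c)
    | add x y _ _ hx hy =>
      rw [map_add]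
      exact A.add_mem hx hy
    | mul x y _ _ hx hy =>
      rw [map_mul]
      exact A.mul_mem hx hy
  have hAr : ∀ x ∈ A, ∃ P : (↥E)[X], aeval a P = x := by
    intro x hx
    have h3 : x ∈ (aeval a : (↥E)[X] →ₐ[↥E] L).range := by
      rwa [← Algebra.adjoin_singleton_eq_range_aeval]
    exact h3
  have hgen : ∀ x : L, ∃ P Q : (↥E)[X], aeval a Q ≠ 0 ∧ x * aeval a Q = aeval a P := by
    intro x
    obtain ⟨k₀, k₁, rfl⟩ := hL x
    obtain ⟨p₀, hp₀, q₀, hq₀, hq₀', e₀⟩ := hfrac k₀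
    obtain ⟨p₁, hp₁, q₁, hq₁, hq₁', e₁⟩ := hfrac k₁
    obtain ⟨Q, hQ⟩ := hAr (algebraMap K L (q₀ * q₁)) (by
      rw [map_mul]
      exact A.mul_mem (hBA _ hq₀) (hBA _ hq₁))
    obtain ⟨P, hP⟩ := hAr (algebraMap K L p₀ * algebraMap K L q₁ +
      algebraMap K L p₁ * algebraMap K L q₀ * lam)
      (A.add_mem (A.mul_mem (hBA _ hp₀) (hBA _ hq₁))
        (A.mul_mem (A.mul_mem (hBA _ hp₁) (hBA _ hq₀)) (hEA _ hlam)))
    refine ⟨P, Q, ?_, ?_⟩
    · rw [hQ]
      exact fun h => mul_ne_zero hq₀' hq₁' ((map_eq_zero _).mp h)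
    · rw [hQ, hP, ← e₀, ← e₁]
      simp only [map_mul]
      ring
  have hac : Transcendental E a := by
    intro halg
    have h3 : Algebra.IsAlgebraic E L := by
      refine ⟨fun x => ?_⟩
      obtain ⟨P, Q, hQ, hP⟩ := hgen x
      have h4 : x = aeval a P / aeval a Q := by rw [eq_div_iff hQ, hP]
      have h5 : x ∈ IntermediateField.adjoin (↥E) {a} := by
        rw [IntermediateField.mem_adjoin_simple_iff]
        exact ⟨P, Q, h4⟩
      have h6 := IntermediateField.isAlgebraic_adjoin_simple (K := E) (x := a)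
        (isAlgebraic_iff_isIntegral.mp halg)
      have h7 := h6.isAlgebraic (⟨x, h5⟩ : IntermediateField.adjoin (↥E) {a})
      exact h7.algebraMap
    have h4 : Algebra.IsAlgebraic (Algebra.adjoin (ZMod 2) (S : Set L)) L :=
      IntermediateField.isAlgebraic_adjoin_iff_top.mp h3
    have h5 := Algebra.IsAlgebraic.trdeg_le_cardinalMk (ZMod 2) (S : Set L)
    rw [← _root_.trdeg_add_eq (ZMod 2) K (A := L), trdeg_eq_zero (R := K) (A := L), add_zero] at h5
    have h5' : Algebra.trdeg (ZMod 2) K ≤ (S.card : Cardinal) :=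
      h5.trans (le_of_eq (Cardinal.mk_coe_finset (s := S)))
    have h6 : (3 * b : Cardinal) ≤ (S.card : Cardinal) + 3 := by
      rw [← htd]
      exact add_le_add_left h5' 3
    have h7 : 3 * b ≤ S.card + 3 := by exact_mod_cast h6
    have h8 : 2 ≤ b := by
      have h9 := i₀.2
      have h10 := i₁.2
      have h11 : (i₁ : ℕ) ≠ i₀ := fun h => hi (Fin.ext h)
      omega
    omega
  exact abs_nil a hac hgen (BB 2 T) hfrac (fun β hβ => hAr _ (hBA β hβ)) Φ hΦ

end Pool.Agent.FrNF

namespace Pool.Agent.FrN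

open Matrix Polynomial Pool.Agent.F2RF Pool.Agent.FrNF

/-- an element of order three -/
def mS : SpecialLinearGroup (Fin 2) (ZMod 2) := ⟨!![0, 1; 1, 1], by decide⟩

/-- an element of order two -/
def mU : SpecialLinearGroup (Fin 2) (ZMod 2) := ⟨!![0, 1; 1, 0], by decide⟩

/-- section F: nilpotence for the free group -/
theorem t_F : I_F := by
  classical
  intro b K F _ _ _ _ _ T ρ hb hH Φ hΦ
  have : CharP K 2 := charP_of_injective_algebraMap (algebraMap (ZMod 2) K).injective 2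
  have : CharP F 2 := charP_of_injective_algebraMap (algebraMap (ZMod 2) F).injective 2
  let i₀ : Fin b := ⟨0, by omega⟩
  let i₁ : Fin b := ⟨1, by omega⟩
  have hi : i₁ ≠ i₀ := fun h => one_ne_zero (congrArg Fin.val h)
  let r₀ : FreeGroup (Fin b) →* SpecialLinearGroup (Fin 2) (ZMod 2) :=
    FreeGroup.lift fun i => if i = i₀ then mS else if i = i₁ then mU else 1
  have hr0 : r₀ (FreeGroup.of i₀) = mS := by simp [r₀]
  have hr1 : r₀ (FreeGroup.of i₁) = mU := by simp [r₀, hi]
  obtain ⟨φ, hφ⟩ := hH.pts (ZMod 2) r₀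
  let tO : FreeGroup (Fin b) → OO 2 ρ := fun g =>
    ⟨(ρ g).1 0 0, mem_OO ρ g 0 0⟩ + ⟨(ρ g).1 1 1, mem_OO ρ g 1 1⟩
  have hφt : ∀ g, φ (tO g) = (r₀ g).1 0 0 + (r₀ g).1 1 1 := by
    intro g
    simp only [tO]
    rw [map_add, hφ, hφ]
  have htO : ∀ g, (tO g : F) = algebraMap K F (T g) := by
    intro g
    rw [← hH.tr, Matrix.trace_fin_two]
    rfl
  have hs : T (FreeGroup.of i₀) ≠ 0 := by
    intro h
    have h1 : tO (FreeGroup.of i₀) = 0 := Subtype.ext (by rw [htO, h, map_zero]; rfl)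
    have h2 := hφt (FreeGroup.of i₀)
    rw [h1, map_zero, hr0] at h2
    revert h2
    decide
  have hc : (ρ (FreeGroup.of i₀)).1 1 0 ≠ 0 := by
    intro h
    have h2 := hφ (FreeGroup.of i₀) 1 0
    have h1 : (⟨(ρ (FreeGroup.of i₀)).1 1 0, mem_OO ρ (FreeGroup.of i₀) 1 0⟩ : OO 2 ρ) = 0 :=
      Subtype.ext h
    rw [h1, map_zero, hr0] at h2
    revert h2
    decide
  have hN : T (FreeGroup.of i₀) ^ 2 + T (FreeGroup.of i₁) ^ 2 +
      T (FreeGroup.of i₀ * FreeGroup.of i₁) ^ 2 + T (FreeGroup.of i₀) * T (FreeGroup.of i₁) *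
        T (FreeGroup.of i₀ * FreeGroup.of i₁) ≠ 0 := by
    intro h
    have h1 : tO (FreeGroup.of i₀) ^ 2 + tO (FreeGroup.of i₁) ^ 2 +
        tO (FreeGroup.of i₀ * FreeGroup.of i₁) ^ 2 + tO (FreeGroup.of i₀) *
          tO (FreeGroup.of i₁) * tO (FreeGroup.of i₀ * FreeGroup.of i₁) = 0 := by
      apply Subtype.ext
      push_cast
      rw [htO, htO, htO, ← map_pow, ← map_pow, ← map_pow, ← map_mul, ← map_mul, ← map_add,
        ← map_add, ← map_add, h, map_zero]
    have h2 := congrArg φ h1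
    simp only [map_add, map_mul, map_pow, map_zero] at h2
    rw [hφt, hφt, hφt, map_mul, hr0, hr1] at h2
    revert h2
    decide
  obtain ⟨L, _, _, lam, r, hfd, hsep, hL, htr, h0, h1⟩ :=
    normal_form T ρ hH.tr (FreeGroup.of i₀) (FreeGroup.of i₁) hs hc hN
  exact nil_of_normal T hH.fracK hH.trK i₀ i₁ hi lam r hL htr h0 h1 Φ hΦ

end Pool.Agent.FrN
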